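import Pool.Agent.helper56.NR.Spec

set_option autoImplicit false

open Complex Metric Set Filter Topology MeasureTheory Pool.Agent.helper98.ILF

open EX (ff)

noncomputable section

namespace NR

theorem CO0_anti {n : ℕ} {c : ℂ} {N : ℕ} {mm : ℕ → ℕ} {l l' : ℕ → ℝ} {G g : ℕ → ℂ → ℂ}
    (hC : Chn n c N mm l l' G g) : ∀ k ≤ N, mm k ≤ mm 0 := by
  intro k
  induction k with
  | zero => intro _; exact le_rfl
  | succ k ih =>
    intro hk
    have h1 := hC.lt k (by omega)
    have h2 := ih (by omega)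
    omega

theorem CO0_dist {n : ℕ} {c : ℂ} {N : ℕ} {mm : ℕ → ℕ} {l l' : ℕ → ℝ} {G g : ℕ → ℂ → ℂ}
    (hC : Chn n c N mm l l' G g) :
    ∀ k ≤ N, ‖vv n c (mm 0) - vv n c (mm k)‖ ≤ ∑ m ∈ Finset.range k, l m := by
  intro k
  induction k with
  | zero => intro _; simp
  | succ k ih =>
    intro hk
    have h1 := ih (by omega)
    have h2 := hC.dist k (by omega)
    rw [Finset.sum_range_succ]
    calc ‖vv n c (mm 0) - vv n c (mm (k + 1))‖
        = ‖(vv n c (mm 0) - vv n c (mm k)) - (vv n c (mm (k + 1)) - vv n c (mm k))‖ := by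
          congr 1
          ring
      _ ≤ ‖vv n c (mm 0) - vv n c (mm k)‖ + ‖vv n c (mm (k + 1)) - vv n c (mm k)‖ :=
          norm_sub_le _ _
      _ ≤ ∑ m ∈ Finset.range k, l m + l k := add_le_add h1 h2.le

theorem CO0 (hBRU : BRU_stmt) (hCON : CON_stmt) : CO0_stmt := by
  intro n c N mm l l' G g y ρ h hC hh hy hhc k hk hsum
  have hd := CO0_dist hC k hk.le
  refine ⟨hd, ?_⟩
  have hmk : mm k ≤ mm 0 := CO0_anti hC k hk.le
  have hb : Brc n c (mm k) y ρ (fun w => (ff n c)^[mm 0 - mm k] (h w)) := hh.comp hmk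
  have hGk := hC.br k hk
  have hlk := hC.pos k hk
  have he0 : vv n c (mm 0) ∈ ball (vv n c (mm k)) (l k) := by
    rw [mem_ball, dist_eq_norm]
    linarith
  have hval : (ff n c)^[mm 0 - mm k] (h (vv n c (mm 0))) = G k (vv n c (mm 0)) := by
    rw [hhc]
    rcases Nat.eq_zero_or_pos k with h0 | h0
    · subst h0
      rw [hC.ce 0 hk]
      simp
    · have h1 : ∑ m ∈ Finset.Ioo 0 k, l m ≤ l k / 2 := by
        refine le_trans ?_ hsum
        apply Finset.sum_le_sum_of_subset_of_nonneg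
        · intro m hm
          rw [Finset.mem_Ioo] at hm
          rw [Finset.mem_range]
          exact hm.2
        · intro m hm _
          rw [Finset.mem_range] at hm
          exact (hC.pos m (by omega)).le
      have h2 := (hCON n c N mm l l' G g hC 0 k h0 hk h1).2 (vv n c (mm 0))
        ⟨mem_ball_self (hC.pos 0 (by omega)), he0⟩
      rw [hC.ce 0 (by omega)] at h2
      exact h2
  intro w hw
  exact hBRU n c (mm k) y (vv n c (mm k)) (vv n c (mm 0)) ρ (l k)
    (fun w => (ff n c)^[mm 0 - mm k] (h w)) (G k) hb hGk hy he0 hval hw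

end NR
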