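import Pool.Agent.helper24.NR.Spec

set_option autoImplicit false

namespace Pool.Agent.NR

open Finset

theorem HLO_sym {V F : Type} {vs : F → Finset V} {es : F → Finset (Sym2 V)} {x y : V}
    (hb : Bad vs es x y) : Bad vs es y x where
  cfg := hb.cfg
  ne := hb.ne.symm
  star := fun v h1 h2 => ⟨(hb.star v h2 h1).2, (hb.star v h2 h1).1⟩
  noface := fun f h1 h2 => hb.noface f h2 h1
  hA := fun v f g h1 h2 => hb.hA v g f h2 h1
  hB := fun v u f g k l h1 h2 h3 h4 h5 h6 =>
    hb.hB u v g f l k h2 h1 h4 h3 (by rw [Sym2.eq_swap]; exact h6) (by rw [Sym2.eq_swap]; exact h5)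

theorem HLO_two {V F : Type} {vs : F → Finset V} {es : F → Finset (Sym2 V)} (hc : Cfg vs es)
    {e : Sym2 V} {k1 k2 g : F} (h1 : e ∈ es k1) (h2 : e ∈ es k2) (hne : k1 ≠ k2) (hg : e ∈ es g) :
    g = k1 ∨ g = k2 := by
  obtain ⟨f1, g1, hfg, hall⟩ := hc.two e ⟨k1, h1⟩
  rcases (hall k1).1 h1 with a1 | a1 <;> rcases (hall k2).1 h2 with a2 | a2 <;>
    rcases (hall g).1 hg with a3 | a3
  · exact Or.inl (a3.trans a1.symm)
  · exact absurd (a1.trans a2.symm) hne
  · exact Or.inl (a3.trans a1.symm)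
  · exact Or.inr (a3.trans a2.symm)
  · exact Or.inr (a3.trans a2.symm)
  · exact Or.inl (a3.trans a1.symm)
  · exact absurd (a1.trans a2.symm) hne
  · exact Or.inl (a3.trans a1.symm)

theorem HLO_deg {V F : Type} {vs : F → Finset V} {es : F → Finset (Sym2 V)} (hc : Cfg vs es)
    {f : F} {q a b w : V} (h1 : s(q, a) ∈ es f) (h2 : s(q, b) ∈ es f) (hne : a ≠ b)
    (hw : s(q, w) ∈ es f) : w = a ∨ w = b := by
  obtain ⟨c, d, hcd, hall⟩ := hc.deg2 f q (hc.ends f q a h1).1
  rcases (hall a).1 h1 with a1 | a1 <;> rcases (hall b).1 h2 with a2 | a2 <;>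
    rcases (hall w).1 hw with a3 | a3
  · exact Or.inl (a3.trans a1.symm)
  · exact absurd (a1.trans a2.symm) hne
  · exact Or.inl (a3.trans a1.symm)
  · exact Or.inr (a3.trans a2.symm)
  · exact Or.inr (a3.trans a2.symm)
  · exact Or.inl (a3.trans a1.symm)
  · exact absurd (a1.trans a2.symm) hne
  · exact Or.inl (a3.trans a1.symm)

theorem HLO_key {V F : Type} {vs : F → Finset V} {es : F → Finset (Sym2 V)} {x y : V}
    (hb : Bad vs es x y) {H f f' : F} {p q r : V} (hxH : x ∉ vs H) (hyH : y ∉ vs H)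
    (hpr : p ≠ r) (hqp : s(q, p) ∈ es H) (hqr : s(q, r) ∈ es H)
    (hxf : x ∈ vs f) (hxf' : x ∈ vs f') (hf : s(q, p) ∈ es f) (hf' : s(q, r) ∈ es f') : False := by
  have hc := hb.cfg
  obtain ⟨hqH, hpH, hqpne⟩ := hc.ends H q p hqp
  obtain ⟨-, hrH, hqrne⟩ := hc.ends H q r hqr
  obtain ⟨hqf, hpf, -⟩ := hc.ends f q p hf
  obtain ⟨hqf', hrf', -⟩ := hc.ends f' q r hf'
  have hfH : f ≠ H := fun h => hxH (h ▸ hxf)
  have hfH' : f' ≠ H := fun h => hxH (h ▸ hxf')
  have hff' : f ≠ f' := by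
    intro h
    rw [← h] at hrf'
    exact hc.meet3 f H hfH q p r hqpne hpr hqrne hqf hpf hrf' hqH hpH hrH
  have hqx : q ≠ x := fun h => hxH (h ▸ hqH)
  have hqy : q ≠ y := fun h => hyH (h ▸ hqH)
  have hpx : x ≠ p := fun h => hxH (h ▸ hpH)
  have hrx : x ≠ r := fun h => hxH (h ▸ hrH)
  have e1 : s(q, x) ∈ es f := hc.meet2 f f' hff' q x hqx hqf hxf hqf' hxf'
  have e2 : s(q, x) ∈ es f' := hc.meet2 f' f hff'.symm q x hqx hqf' hxf' hqf hxf
  have hlink := hc.link q {k | k = f ∨ k = f' ∨ k = H} ⟨f, Or.inl rfl, hqf⟩ (by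
    intro k hk g hg
    obtain ⟨e, hqe, hek, heg⟩ := hg
    obtain ⟨w, rfl⟩ := Sym2.mem_iff_exists.1 hqe
    rcases hk with rfl | rfl | rfl
    · rcases HLO_deg hc e1 hf hpx hek with rfl | rfl
      · rcases HLO_two hc e1 e2 hff' heg with h | h
        · exact Or.inl h
        · exact Or.inr (Or.inl h)
      · rcases HLO_two hc hf hqp hfH heg with h | h
        · exact Or.inl h
        · exact Or.inr (Or.inr h)
    · rcases HLO_deg hc e2 hf' hrx hek with rfl | rfl
      · rcases HLO_two hc e1 e2 hff' heg with h | h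
        · exact Or.inl h
        · exact Or.inr (Or.inl h)
      · rcases HLO_two hc hf' hqr hfH' heg with h | h
        · exact Or.inr (Or.inl h)
        · exact Or.inr (Or.inr h)
    · rcases HLO_deg hc hqp hqr hpr hek with rfl | rfl
      · rcases HLO_two hc hf hqp hfH heg with h | h
        · exact Or.inl h
        · exact Or.inr (Or.inr h)
      · rcases HLO_two hc hf' hqr hfH' heg with h | h
        · exact Or.inr (Or.inl h)
        · exact Or.inr (Or.inr h))
  obtain ⟨-, g, hyg, hqg⟩ := hb.star q hqx hqy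
  rcases hlink g hqg with h | h | h
  · exact hb.noface f hxf (h ▸ hyg)
  · exact hb.noface f' hxf' (h ▸ hyg)
  · exact hyH (h ▸ hyg)

theorem HLO : HLO_stmt := by
  classical
  intro V F _ _ vs es x y hb H hH
  have hc := hb.cfg
  obtain ⟨hxH, hyH⟩ : x ∉ vs H ∧ y ∉ vs H := (mem_filter.1 hH).2
  have hsum := card_filter_add_card_filter_not (s := es H) (fun e => e ∈ IN vs es x y)
  have hcard := hc.card_eq H
  have hthree := hc.three H
  by_contra hlt
  have hA0 : ((es H).filter fun e => e ∈ IN vs es x y).card = 0 := by omega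
  have h3 : (vs H).card = 3 := by omega
  have hnot : ∀ e ∈ es H, ∃ f, e ∈ es f ∧ (x ∈ vs f ∨ y ∈ vs f) := by
    intro e he
    by_contra hcon
    push Not at hcon
    have : e ∈ (es H).filter fun e => e ∈ IN vs es x y := by
      refine mem_filter.2 ⟨he, mem_filter.2 ⟨mem_biUnion.2 ⟨H, mem_univ _, he⟩, fun f hf => ?_⟩⟩
      have := hcon f hf
      exact this
    rw [card_eq_zero] at hA0
    rw [hA0] at this
    exact notMem_empty _ this
  obtain ⟨p, q, r, hpq, hpr, hqr, hvs⟩ := card_eq_three.1 h3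
  -- all the edges
  have edge : ∀ a b c : V, a ≠ b → a ≠ c → b ≠ c → vs H = {a, b, c} → s(a, b) ∈ es H := by
    intro a b c hab hac hbc hv
    obtain ⟨d, d', hd, hall⟩ := hc.deg2 H a (by rw [hv]; simp)
    have m1 := hc.ends H a d ((hall d).2 (Or.inl rfl))
    have m2 := hc.ends H a d' ((hall d').2 (Or.inr rfl))
    have n1 : d = b ∨ d = c := by
      have := m1.2.1
      rw [hv] at this
      have t : d = a ∨ d = b ∨ d = c := by simpa using this
      rcases t with t | t | t
      · exact absurd t.symm m1.2.2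
      · exact Or.inl t
      · exact Or.inr t
    have n2 : d' = b ∨ d' = c := by
      have := m2.2.1
      rw [hv] at this
      have t : d' = a ∨ d' = b ∨ d' = c := by simpa using this
      rcases t with t | t | t
      · exact absurd t.symm m2.2.2
      · exact Or.inl t
      · exact Or.inr t
    apply (hall b).2
    rcases n1 with n1 | n1
    · exact Or.inl n1.symm
    · rcases n2 with n2 | n2
      · exact Or.inr n2.symm
      · exact absurd (n1.trans n2.symm) hd
  have epq : s(p, q) ∈ es H := edge p q r hpq hpr hqr hvs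
  have epr : s(p, r) ∈ es H := edge p r q hpr hpq hqr.symm (by
    rw [hvs]; ext z; simp only [mem_insert, mem_singleton]; tauto)
  have eqr : s(q, r) ∈ es H := edge q r p hqr hpq.symm hpr.symm (by
    rw [hvs]; ext z; simp only [mem_insert, mem_singleton]; tauto)
  have eqp : s(q, p) ∈ es H := by rw [Sym2.eq_swap]; exact epq
  have erp : s(r, p) ∈ es H := by rw [Sym2.eq_swap]; exact epr
  have erq : s(r, q) ∈ es H := by rw [Sym2.eq_swap]; exact eqr
  have hb' := HLO_sym hb
  obtain ⟨f1, g1, k1⟩ := hnot _ epq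
  obtain ⟨f2, g2, k2⟩ := hnot _ epr
  obtain ⟨f3, g3, k3⟩ := hnot _ eqr
  have g1' : s(q, p) ∈ es f1 := by rw [Sym2.eq_swap]; exact g1
  have g2' : s(r, p) ∈ es f2 := by rw [Sym2.eq_swap]; exact g2
  have g3' : s(r, q) ∈ es f3 := by rw [Sym2.eq_swap]; exact g3
  rcases k1 with k1 | k1 <;> rcases k2 with k2 | k2
  · exact HLO_key hb hxH hyH hqr epq epr k1 k2 g1 g2
  · rcases k3 with k3 | k3
    · exact HLO_key hb hxH hyH hpr eqp eqr k1 k3 g1' g3
    · exact HLO_key hb' hyH hxH hpq erp erq k2 k3 g2' g3'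
  · rcases k3 with k3 | k3
    · exact HLO_key hb hxH hyH hpq erp erq k2 k3 g2' g3'
    · exact HLO_key hb' hyH hxH hpr eqp eqr k1 k3 g1' g3
  · exact HLO_key hb' hyH hxH hqr epq epr k1 k2 g1 g2

end Pool.Agent.NR
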